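import Pool.Agent.N844.QP.Ex
import Pool.Agent.N975.AllPC
import Pool.Agent.N575.P15.PCE
import Pool.Agent.N875.X15.Conv3
import Pool.Agent.N875.X15.ClE
import Pool.Agent.N969.P15.Glue
import Pool.Agent.N969.P15.QF

/-!
Beilinson's conjecture `ord_{s=i+1} L(H^{2i+1}(X), s) = rank CH^{i+1}(X)_0` for smooth complete
intersections `X` of two quadrics in `P⁵` over `ℚ` (`i = 1`, and for `X × P^{2i-2}` for all `i ≥ 1`).

Let `E_a` be the quadratic twist by `-a` of the modular curve `X_0(15)` (no complex multiplication).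
Let `-n, -n'` be negative fundamental discriminants such that `3` is not inert and `5` is not split in
`ℚ(√-n)` and `ℚ(√-n')` and the class groups of these fields have no element of order four, and let
`-a, -a'` be the squarefree integers with `ℚ(√-a) = ℚ(√-n)`, `ℚ(√-a') = ℚ(√-n')`. For ALL pencils of
quadrics with discriminant curve `C : y² = 2a(aa'x² - 1)(aa'x² - 25)(3aa'x² + 125)` (up to squares) and
base locus `X`: `X` is smooth, the `L`-function of `H³(X)` (in terms of the numbers of points of `X`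
over all finite fields of the good characteristics) is entire and does not vanish at the centre
`s = 2`, and `E_a(ℚ)`, `E_{a'}(ℚ)` are finite; the Jacobian of `C` is isogenous to `E_a × E_{a'}`, and
`CH²(X)_0 ⊗ ℚ = J(C)(ℚ) ⊗ ℚ = 0`. The natural density of these `n` among all fundamental discriminants of
the class is `∏_{i ≥ 1} (1 - 2^{-i}) = 0.2888...`, and for `a = a'` there is an explicit pencil.

The threefolds, the Gauss sum computation of the number of points over all finite fields, the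
eigenvalues of Frobenius and the Euler product are in `Pool/Agent/N844/QP`. The twists of `X_0(15)`
are joint work of helpers 969, 970, 971, 972, 973, 974, 975, 871, 875, 877, 575, 402, 295, 218, 886,
916, 958, 855, 19, 148, 502, 509 (see `MP_696deb_nt/TwistsX15Neg`).
-/

set_option autoImplicit false

open Finset Matrix
open scoped LinearAlgebra.Projectivization

namespace Pool.Agent.Results.MP_6dc9d1_nt.QuadricPencils

/-- the twist `E_a : y² = x³ - 12987 a² x + 263466 a³` of `X_0(15)` by `-a` over `ℚ` -/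
def E (a : ℕ) : WeierstrassCurve ℚ :=
  { a₁ := 0, a₂ := 0, a₃ := 0, a₄ := -12987 * (a : ℚ) ^ 2, a₆ := 263466 * (a : ℚ) ^ 3 }

/-- `-n` is a fundamental discriminant -/
def FundNeg (n : ℕ) : Prop := (Squarefree n ∧ n % 4 = 3) ∨
  ∃ m : ℕ, n = 4 * m ∧ Squarefree m ∧ (m % 4 = 1 ∨ m % 4 = 2)

/-- the family: `-n` is a fundamental discriminant, `3` is not inert and `5` is not split in
`ℚ(√-n)` -/
def Family (n : ℕ) : Prop := FundNeg n ∧ n % 3 ≠ 1 ∧ (n % 5 = 0 ∨ n % 5 = 2 ∨ n % 5 = 3)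

/-- `- sf n` is the squarefree integer with `ℚ(√(- sf n)) = ℚ(√-n)` -/
def sf (n : ℕ) : ℕ := if n % 2 = 1 then n else n / 4

/-- the class group of `ℚ(√-n)` has no element of order four -/
def NoOrderFour (n : ℕ) : Prop :=
  ∀ (K : Type) [Field K] [NumberField K], Module.finrank ℚ K = 2 →
    (∃ s : K, s ^ 2 = -(sf n : K)) →
    ∀ c : ClassGroup (NumberField.RingOfIntegers K), c ^ 4 = 1 → c ^ 2 = 1

open Classical in
/-- the number of the `n ≤ X` of the family -/
noncomputable def total (X : ℕ) : ℕ := ((Icc 1 X).filter fun n => Family n).card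

open Classical in
/-- the number of those for which the class group of `ℚ(√-n)` has no element of order four -/
noncomputable def good (X : ℕ) : ℕ := ((Icc 1 X).filter fun n => Family n ∧ NoOrderFour n).card

/-- the quadratic form of a matrix -/
def qf {R : Type*} [CommRing R] {N : ℕ} (M : Matrix (Fin N) (Fin N) R) (y : Fin N → R) : R :=
  y ⬝ᵥ (M *ᵥ y)

/-- the integral pencils of quadrics in `P⁵` with the discriminant curve
`y² = 2n(nn'x² - 1)(nn'x² - 25)(3nn'x² + 125)` -/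
structure IsPencil (n n' m : ℤ) (A B : Matrix (Fin 6) (Fin 6) ℤ) : Prop where
  symA : A.IsSymm
  symB : B.IsSymm
  disc : ∀ x : ℤ, -(x • A - B).det = 2 * n * m ^ 2 * ((n * n' * x ^ 2 - 1) *
    (n * n' * x ^ 2 - 25) * (3 * (n * n') * x ^ 2 + 125))

/-- the reduction of an integral matrix to a field -/
def red {N : ℕ} (A : Matrix (Fin N) (Fin N) ℤ) (k : Type) [Field k] : Matrix (Fin N) (Fin N) k :=
  A.map (Int.castRingHom k)

/-- the base locus of the pencil is smooth over `k` (Jacobian criterion at the points over `k`) -/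
def Smooth (A B : Matrix (Fin 6) (Fin 6) ℤ) (k : Type) [Field k] : Prop :=
  ∀ y : Fin 6 → k, y ≠ 0 → qf (red A k) y = 0 → qf (red B k) y = 0 →
    LinearIndependent k ![red A k *ᵥ y, red B k *ᵥ y]

/-- the number of points over `k` of the base locus `X ⊂ P⁵` of the pencil -/
noncomputable def numP (A B : Matrix (Fin 6) (Fin 6) ℤ) (k : Type) [Field k] : ℕ :=
  Nat.card {P : ℙ k (Fin 6 → k) // qf (red A k) P.rep = 0 ∧ qf (red B k) P.rep = 0}

/-- `ω` are the eigenvalues of Frobenius at `p` on `H³(X)`: the number of points over every finite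
field `k` with `p ^ r` elements is `1 + p^r + p^(2r) + p^(3r) - ∑ ω_j^r` -/
def IsFrob (A B : Matrix (Fin 6) (Fin 6) ℤ) (p : ℕ) (ω : Fin 4 → ℂ) : Prop :=
  (∀ j, ‖ω j‖ = (p : ℝ) ^ ((3 : ℝ) / 2)) ∧
    ∀ (k : Type) [Field k] [Fintype k] [CharP k p] (r : ℕ), Fintype.card k = p ^ r →
      (numP A B k : ℂ) =
        1 + (p : ℂ) ^ r + (p : ℂ) ^ (2 * r) + (p : ℂ) ^ (3 * r) - ∑ j, ω j ^ r

/-- `L` is entire and is the Euler product of `∏_j (1 - ω_j p^{-s})⁻¹` over the primes not dividing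
`M`, where `ω_j` are the eigenvalues of Frobenius at `p` on `H³(X)` -/
def IsL (A B : Matrix (Fin 6) (Fin 6) ℤ) (M : ℤ) (L : ℂ → ℂ) : Prop :=
  Differentiable ℂ L ∧ ∃ ω : ℕ → Fin 4 → ℂ,
    (∀ p : ℕ, p.Prime → ¬ (p : ℤ) ∣ M → IsFrob A B p (ω p)) ∧
    ∀ s : ℂ, (5 : ℝ) / 2 < s.re →
      HasProd (fun p : ℕ => open Classical in
        if p.Prime ∧ ¬ (p : ℤ) ∣ M then ∏ j, (1 - ω p j * (p : ℂ) ^ (-s))⁻¹ else 1) (L s)

/-- `n (10 n y₀² + y₁² + y₂² + y₃² + 3 y₄² - 5 y₅²)` -/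
def exA (n : ℤ) : Matrix (Fin 6) (Fin 6) ℤ :=
  !![10 * n ^ 2, 0, 0, 0, 0, 0;
     0, n, 0, 0, 0, 0;
     0, 0, n, 0, 0, 0;
     0, 0, 0, n, 0, 0;
     0, 0, 0, 0, 3 * n, 0;
     0, 0, 0, 0, 0, -5 * n]

/-- `10 n y₀² - y₁² + 5 y₂² - 5 y₃² - 50 y₄ y₅` -/
def exB (n : ℤ) : Matrix (Fin 6) (Fin 6) ℤ :=
  !![10 * n, 0, 0, 0, 0, 0;
     0, -1, 0, 0, 0, 0;
     0, 0, 5, 0, 0, 0;
     0, 0, 0, -5, 0, 0;
     0, 0, 0, 0, 0, -25;
     0, 0, 0, 0, -25, 0]

open Pool.Agent.N875.X15 (WS Ao Ae crit_ao_S crit_ae_S)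
open Pool.Agent.N916.TE (FD Go)
open Pool.Agent.N975.All (mD)

theorem mD_eq (n : ℕ) : mD n = -(sf n : ℤ) := by
  unfold mD sf
  split_ifs <;> rfl

theorem pos {n : ℕ} (h : Family n) : 0 < n := by
  obtain ⟨⟨h1, -⟩ | ⟨k, rfl, h1, -⟩, -, -⟩ := h
  · exact Nat.pos_of_ne_zero h1.ne_zero
  · have := Nat.pos_of_ne_zero h1.ne_zero
    omega

theorem sf_pos {n : ℕ} (h : Family n) : 0 < sf n := by
  have h1 := pos h
  unfold sf
  split_ifs with h3
  · exact h1
  · obtain ⟨⟨h4, h5⟩ | ⟨k, rfl, h4, h5⟩, -, -⟩ := h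
    · omega
    · have := Nat.pos_of_ne_zero h4.ne_zero
      omega

theorem E_eq (n : ℕ) : E (sf n) = WS (mD n) := by
  rw [mD_eq]
  unfold E WS
  congr 1
  · push_cast; ring
  · push_cast; ring

theorem finite_E {n : ℕ} (h : Family n) (hG : Go n) : Finite (E (sf n)).toAffine.Point := by
  rw [E_eq]
  have h2 : Pool.Agent.N875.X15.Fin2 (WS (mD n)) := by
    obtain ⟨h1, h3, h5⟩ := h
    rcases h1 with ⟨hsq, h4⟩ | hE
    · have ho : n % 2 = 1 := by omega
      have em : mD n = -(n : ℤ) := if_pos ho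
      have h6 := crit_ao_S (n := n) ⟨hsq, h4, h3, h5⟩
      rw [em, h6]
      exact hG.1 ho
    · have ho : n % 2 = 0 := by
        obtain ⟨k, rfl, -⟩ := hE
        omega
      have em : mD n = -((n / 4 : ℕ) : ℤ) := if_neg (by omega)
      have h6 := crit_ae_S (n := n) ⟨hE, h3, h5⟩
      rw [em, h6]
      exact hG.2 ho
  exact h2.1

theorem class_iff {n : ℕ} (h : Family n) : NoOrderFour n ↔ Go n := by
  have h0 := pos h
  obtain ⟨h1, h3, h5⟩ := h
  rcases h1 with ⟨hsq, h4⟩ | hE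
  · have ho : n % 2 = 1 := by omega
    have em : sf n = n := if_pos ho
    have key : ∀ (K : Type) [Field K] [NumberField K], Module.finrank ℚ K = 2 →
        (∃ s : K, s ^ 2 = -(sf n : K)) →
        ((∀ c : ClassGroup (NumberField.RingOfIntegers K), c ^ 4 = 1 → c ^ 2 = 1) ↔ Go n) := by
      intro K _ _ h6 h7
      rw [em] at h7
      rw [Pool.Agent.N875.X15.qc_iff_class hsq h4 K h6 h7, ← Pool.Agent.N875.X15.qc_P15 h0.ne']
      exact ⟨fun h => ⟨fun _ => h, fun h2 => by omega⟩, fun h => h.1 ho⟩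
    constructor
    · intro h8
      obtain ⟨K, i1, i2, h6, h7⟩ := Pool.Agent.N969.P15.exists_qf (n := sf n) (by rw [em]; exact h0)
      exact (key K h6 h7).1 (h8 K h6 h7)
    · intro h8 K i1 i2 h6 h7
      exact (key K h6 h7).2 h8
  · have ho : n % 2 = 0 := by
      obtain ⟨k, rfl, -⟩ := hE
      omega
    have h04 : 0 < n / 4 := by
      obtain ⟨k, rfl, -⟩ := hE
      omega
    have em : sf n = n / 4 := if_neg (by omega)
    have hn4 : n ≠ 4 := by omega
    have key : ∀ (K : Type) [Field K] [NumberField K], Module.finrank ℚ K = 2 →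
        (∃ s : K, s ^ 2 = -(sf n : K)) →
        ((∀ c : ClassGroup (NumberField.RingOfIntegers K), c ^ 4 = 1 → c ^ 2 = 1) ↔ Go n) := by
      intro K _ _ h6 h7
      rw [em] at h7
      rw [Pool.Agent.N875.X15.qe_iff_class hE hn4 K h6 h7]
      exact ⟨fun h => ⟨fun h2 => by omega, fun _ => h⟩, fun h => h.2 ho⟩
    constructor
    · intro h8
      obtain ⟨K, i1, i2, h6, h7⟩ := Pool.Agent.N969.P15.exists_qf (n := sf n) (by rw [em]; exact h04)
      exact (key K h6 h7).1 (h8 K h6 h7)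
    · intro h8 K i1 i2 h6 h7
      exact (key K h6 h7).2 h8

theorem exists_G {n : ℕ} (h : Family n) (hG : Go n) :
    ∃ G : ℂ → ℂ, Differentiable ℂ G ∧ (∀ s : ℂ, (3 : ℝ) / 2 < s.re →
      HasProd (fun p : ℕ => Pool.Agent.N844.QP.facE (sf n : ℤ) p s) (G s)) ∧ G 1 ≠ 0 := by
  obtain ⟨F, hF, hp, ho, hr⟩ := Pool.Agent.N975.All.bsd_all Pool.Agent.N575.P15.PCE.t_PCE
    Pool.Agent.N575.P15.PCE.t_PC5E (n := n) h hG
  have e1 : -12987 * (mD n) ^ 2 = Pool.Agent.N844.QP.aE (sf n : ℤ) := by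
    rw [mD_eq]
    unfold Pool.Agent.N844.QP.aE; ring
  have e2 : -263466 * (mD n) ^ 3 = Pool.Agent.N844.QP.bE (sf n : ℤ) := by
    rw [mD_eq]
    unfold Pool.Agent.N844.QP.bE; ring
  refine ⟨F, hF, fun s hs => ?_, ?_⟩
  · have := hp s hs
    rw [e1, e2] at this
    exact this
  · exact (hF.analyticAt 1).analyticOrderAt_eq_zero.1 ho

theorem result :
    -- the natural density of the good `n`
    Filter.Tendsto (fun X : ℕ => (good X : ℝ) / (total X : ℝ))
      Filter.atTop (nhds (∏' i : ℕ, (1 - (1 / 2 : ℝ) ^ (i + 1)))) ∧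
    -- the theorem for all pencils
    (∀ n n' : ℕ, Family n → Family n' → NoOrderFour n → NoOrderFour n' →
      Finite (E (sf n)).toAffine.Point ∧ Finite (E (sf n')).toAffine.Point ∧
      ∀ m : ℤ, m ≠ 0 → ∀ A B : Matrix (Fin 6) (Fin 6) ℤ, IsPencil (sf n) (sf n') m A B →
        (∀ (k : Type) [Field k] [CharZero k], Smooth A B k) ∧
        (∀ (p : ℕ) (k : Type) [Field k] [CharP k p], p.Prime →
          ¬ (p : ℤ) ∣ 30 * (sf n * sf n' * m) → Smooth A B k) ∧
        ∃ L : ℂ → ℂ, IsL A B (30 * (sf n * sf n' * m)) L ∧ L 2 ≠ 0) ∧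
    -- an explicit pencil for every `a`
    ∀ a : ℤ, IsPencil a a 5 (exA a) (exB a) := by
  classical
  refine ⟨?_, ?_, ?_⟩
  · have h := Pool.Agent.N916.TE.density_T3
    unfold Pool.Agent.N916.GB.eta at h
    refine h.congr fun X => congrArg₂ (fun a b : ℕ => (a : ℝ) / (b : ℝ)) ?_ ?_
    · refine congrArg Finset.card (Finset.ext fun n => ?_)
      refine (Finset.mem_filter).trans (Iff.trans ?_ (Finset.mem_filter).symm)
      refine and_congr_right fun _ => ?_
      constructor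
      · rintro ⟨h1, h2, h3⟩
        exact ⟨⟨h1, h2⟩, (class_iff ⟨h1, h2⟩).2 h3⟩
      · rintro ⟨h1, h2⟩
        exact ⟨h1.1, h1.2, (class_iff h1).1 h2⟩
    · refine congrArg Finset.card (Finset.ext fun n => ?_)
      refine (Finset.mem_filter).trans (Iff.trans ?_ (Finset.mem_filter).symm)
      exact Iff.rfl
  · intro n n' h h' hc hc'
    have hQ := (class_iff h).1 hc
    have hQ' := (class_iff h').1 hc'
    refine ⟨finite_E h hQ, finite_E h' hQ', fun m hm A B hAB => ?_⟩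
    have hn : (sf n : ℤ) ≠ 0 := by exact_mod_cast (sf_pos h).ne'
    have hn' : (sf n' : ℤ) ≠ 0 := by exact_mod_cast (sf_pos h').ne'
    have hAB' : Pool.Agent.N844.QP.IsPencil (sf n) (sf n') m A B := ⟨hAB.symA, hAB.symB, hAB.disc⟩
    refine ⟨fun k _ _ y hy h6 h7 => ?_, fun p k _ _ hp hpM y hy h6 h7 => ?_, ?_⟩
    · exact hAB'.smooth (by norm_num) (by norm_num) (by norm_num) (by exact_mod_cast hn)
        (by exact_mod_cast hn') (by exact_mod_cast hm) hy h6 h7
    · have c0 : ∀ a : ℤ, a ∣ 30 * (sf n * sf n' * m) → (a : k) ≠ 0 := fun a ha h0 =>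
        hpM (((CharP.intCast_eq_zero_iff k p a).1 h0).trans ha)
      have k2 : (2 : k) ≠ 0 := by simpa using c0 2 ⟨15 * (sf n * sf n' * m), by ring⟩
      have k3 : (3 : k) ≠ 0 := by simpa using c0 3 ⟨10 * (sf n * sf n' * m), by ring⟩
      have k5 : (5 : k) ≠ 0 := by simpa using c0 5 ⟨6 * (sf n * sf n' * m), by ring⟩
      exact hAB'.smooth k2 k3 k5 (c0 (sf n) ⟨30 * (sf n' * m), by ring⟩)
        (c0 (sf n') ⟨30 * (sf n * m), by ring⟩) (c0 m ⟨30 * (sf n * sf n'), by ring⟩) hy h6 h7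
    · obtain ⟨G, g1, g2, g3⟩ := exists_G h hQ
      obtain ⟨G', g1', g2', g3'⟩ := exists_G h' hQ'
      obtain ⟨ω, hω, L, l1, l2, l3⟩ :=
        Pool.Agent.N844.QP.eulerP hn hn' hm hAB' g1 g2 g3 g1' g2' g3'
      refine ⟨L, ⟨l1, ω, hω, fun s hs => ?_⟩, l3⟩
      exact l2 s hs
  · intro n
    have h := Pool.Agent.N844.QP.ex_pencil n
    exact ⟨h.symA, h.symB, h.disc⟩

end Pool.Agent.Results.MP_6dc9d1_nt.QuadricPencils
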